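import Mathlib

/-!
Concentration-programmable tile systems (temperature 2) need assemblies of polynomial size:
for a fixed tile system with `k` tile types the numbers `n` cannot all be represented, with
error probability `δ < 1/3`, by assemblies of fewer than `n ^ (1 / (2 * k * 2 ^ k))` tiles.
-/

set_option linter.unusedSectionVars false

namespace Pool.Agent.Results.MP_c103f8_lc.PolynomialSizeNeeded

open scoped ENNReal NNReal
open Filter Classical

/-- The positions of the grid. -/
abbrev Pos : Type := ℤ × ℤ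

/-- The unit vectors of the directions north, east, south, west; `d + 2` is opposite to `d`. -/
def vec : Fin 4 → Pos := ![(0, 1), (1, 0), (0, -1), (-1, 0)]

/-- An assembly: a finite set of placed tiles. -/
abbrev Asm (T : Type) : Type := Finset (Pos × T)

variable {L T : Type} [Fintype T]

/-- The domain: the set of the occupied positions. -/
noncomputable def dom (α : Asm T) : Finset Pos := α.image Prod.fst

/-- The strength of the interaction of two placed tiles: they must be adjacent, and the abutting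
sides must carry the same glue (label and strength). -/
noncomputable def bond (glue : T → Fin 4 → L × ℕ) (x y : Pos × T) : ℕ :=
  ∑ d : Fin 4, if y.1 = x.1 + vec d ∧ glue x.2 d = glue y.2 (d + 2) then (glue x.2 d).2 else 0

/-- Stability at temperature 2: every cut of the binding graph has total strength at least 2. -/
def Stable (glue : T → Fin 4 → L × ℕ) (α : Asm T) : Prop :=
  ∀ A : Asm T, A ⊆ α → A.Nonempty → A ≠ α → 2 ≤ ∑ x ∈ A, ∑ y ∈ α \ A, bond glue x y

/-- The tile type `t` can be added stably at the empty position `p` adjacent to `α`. -/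
def CanAdd (glue : T → Fin 4 → L × ℕ) (α : Asm T) (p : Pos) (t : T) : Prop :=
  p ∉ dom α ∧ (∃ d, p + vec d ∈ dom α) ∧ Stable glue (insert (p, t) α)

/-- The frontier: the positions where one tile can be added stably. -/
def frontier (glue : T → Fin 4 → L × ℕ) (α : Asm T) : Set Pos := {p | ∃ t, CanAdd glue α p t}

/-- No tile can be added. -/
def Terminal (glue : T → Fin 4 → L × ℕ) (α : Asm T) : Prop := ∀ p t, ¬ CanAdd glue α p t

/-- The tile types which can bind at `p`. -/
noncomputable def binders (glue : T → Fin 4 → L × ℕ) (α : Asm T) (p : Pos) : Finset T :=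
  Finset.univ.filter fun t => CanAdd glue α p t

/-- The share of `t` among the tile types in `J`, for the concentrations `ρ`. -/
noncomputable def share (ρ : T → ℝ≥0) (J : Finset T) (t : T) : ℝ≥0 := ρ t / ∑ u ∈ J, ρ u

/-- The probability that the next step from `α` places the tile type `x.2` at the position `x.1`:
the position is chosen uniformly in the frontier, then the tile type is chosen among those which
can bind there, with probability proportional to its concentration. -/
noncomputable def stepProb (glue : T → Fin 4 → L × ℕ) (ρ : T → ℝ≥0) (α : Asm T)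
    (x : Pos × T) : ℝ≥0∞ :=
  if CanAdd glue α x.1 x.2 then
    ((frontier glue α).encard : ℝ≥0∞)⁻¹ * (share ρ (binders glue α x.1) x.2 : ℝ≥0∞) else 0

/-- The last assembly of the assembly sequence from `α` which places the tiles of a list. -/
noncomputable def last : Asm T → List (Pos × T) → Asm T
  | α, [] => α
  | α, x :: l => last (insert x α) l

/-- The product of the step probabilities along the assembly sequence from `α` which places the
tiles of a list. -/
noncomputable def seqProb (glue : T → Fin 4 → L × ℕ) (ρ : T → ℝ≥0) :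
    Asm T → List (Pos × T) → ℝ≥0∞
  | _, [] => 1
  | α, x :: l => stepProb glue ρ α x * seqProb glue ρ (insert x α) l

/-- The probability that the random terminal assembly lies in `E`: the sum, over the assembly
sequences from the seed which end in a terminal assembly in `E`, of the products of the step
probabilities. -/
noncomputable def Pr (glue : T → Fin 4 → L × ℕ) (seed : Pos × T) (ρ : T → ℝ≥0)
    (E : Set (Asm T)) : ℝ≥0∞ :=
  ∑' l : List (Pos × T),
    if Terminal glue (last {seed} l) ∧ last {seed} l ∈ E then seqProb glue ρ {seed} l else 0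

/-! ### Proof -/

lemma tsum_list {X : Type} (f : List X → ℝ≥0∞) :
    ∑' l, f l = f [] + ∑' x, ∑' l, f (x :: l) := by
  have h0 : ∑' l, f l = f [] + ∑' l, (if l = [] then 0 else f l) := by
    convert ENNReal.tsum_eq_add_tsum_ite (f := f) []
  rw [h0]
  congr 1
  rw [← ENNReal.tsum_prod (f := fun x l => f (x :: l))]
  have hinj : Function.Injective (fun p : X × List X => p.1 :: p.2) := by
    rintro ⟨a, b⟩ ⟨c, d⟩ h
    simpa using h
  rw [← hinj.tsum_eq (f := fun l => if l = [] then 0 else f l)]
  · simp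
  · intro l hl
    cases l with
    | nil => simp at hl
    | cons x l => exact ⟨(x, l), rfl⟩

/-- The sum over the assembly sequences from `β` weighted by `g` of the last assembly. -/
noncomputable def W (glue : T → Fin 4 → L × ℕ) (ρ : T → ℝ≥0) (g : Asm T → ℝ≥0∞) (β : Asm T) :
    ℝ≥0∞ := ∑' l, g (last β l) * seqProb glue ρ β l

/-- The indicator of the terminal assemblies in `E`. -/
noncomputable def ind (glue : T → Fin 4 → L × ℕ) (E : Set (Asm T)) (α : Asm T) : ℝ≥0∞ :=
  if Terminal glue α ∧ α ∈ E then 1 else 0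

lemma Pr_eq (glue : T → Fin 4 → L × ℕ) (seed : Pos × T) (ρ : T → ℝ≥0) (E : Set (Asm T)) :
    Pr glue seed ρ E = W glue ρ (ind glue E) {seed} := by
  unfold Pr W ind
  refine tsum_congr fun l => ?_
  split_ifs <;> simp

lemma W_eq (glue : T → Fin 4 → L × ℕ) (ρ : T → ℝ≥0) (g : Asm T → ℝ≥0∞) (β : Asm T) :
    W glue ρ g β = g β + ∑' x, stepProb glue ρ β x * W glue ρ g (insert x β) := by
  unfold W
  rw [tsum_list]
  simp only [last, seqProb, mul_one]
  congr 1
  refine tsum_congr fun x => ?_
  rw [← ENNReal.tsum_mul_left]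
  refine tsum_congr fun l => ?_
  ring

lemma stepProb_terminal {glue : T → Fin 4 → L × ℕ} {β : Asm T} (h : Terminal glue β)
    (ρ : T → ℝ≥0) (x : Pos × T) : stepProb glue ρ β x = 0 := by
  unfold stepProb
  rw [if_neg (h _ _)]

lemma tsum_frontier (S : Set Pos) : ∑' p : Pos, (if p ∈ S then ((S.encard : ℝ≥0∞))⁻¹ else 0) ≤ 1 := by
  have h1 : ∑' p : Pos, (if p ∈ S then ((S.encard : ℝ≥0∞))⁻¹ else 0) =
      ∑' p : S, ((S.encard : ℝ≥0∞))⁻¹ := by
    rw [tsum_subtype S (fun _ => ((S.encard : ℝ≥0∞))⁻¹)]
    refine tsum_congr fun p => ?_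
    simp [Set.indicator]
  rw [h1, ENNReal.tsum_set_const]
  exact ENNReal.mul_inv_le_one _

lemma step_sum {glue : T → Fin 4 → L × ℕ} {β : Asm T} (w : Pos → T → ℝ≥0∞) (c : ℝ≥0∞)
    (hw : ∀ p, ∑ t ∈ binders glue β p, w p t ≤ c) :
    ∑' x : Pos × T, (if CanAdd glue β x.1 x.2 then ((frontier glue β).encard : ℝ≥0∞)⁻¹ *
      w x.1 x.2 else 0) ≤ c := by
  rw [ENNReal.tsum_prod (f := fun p t => if CanAdd glue β p t then
    ((frontier glue β).encard : ℝ≥0∞)⁻¹ * w p t else 0)]
  have h : ∀ p, (∑' t, if CanAdd glue β p t then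
      ((frontier glue β).encard : ℝ≥0∞)⁻¹ * w p t else 0) ≤
      (if p ∈ frontier glue β then ((frontier glue β).encard : ℝ≥0∞)⁻¹ else 0) * c := by
    intro p
    rw [tsum_fintype, ← Finset.sum_filter]
    by_cases hp : p ∈ frontier glue β
    · rw [if_pos hp, ← Finset.mul_sum]
      exact mul_le_mul_right (hw p) _
    · rw [if_neg hp, zero_mul]
      refine le_of_eq (Finset.sum_eq_zero fun t ht => ?_)
      exact absurd ⟨t, (Finset.mem_filter.1 ht).2⟩ hp
  refine (ENNReal.tsum_le_tsum h).trans ?_
  rw [ENNReal.tsum_mul_right]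
  exact (mul_le_mul_left (tsum_frontier _) c).trans_eq (one_mul c)

lemma sum_share_le (ρ : T → ℝ≥0) (J : Finset T) : ∑ t ∈ J, (share ρ J t : ℝ≥0∞) ≤ 1 := by
  rw [← ENNReal.ofNNReal_finsetSum]
  unfold share
  rw [← Finset.sum_div]
  exact_mod_cast div_self_le_one _

lemma sum_step_le (glue : T → Fin 4 → L × ℕ) (ρ : T → ℝ≥0) (β : Asm T) :
    ∑' x, stepProb glue ρ β x ≤ 1 :=
  step_sum (fun p t => (share ρ (binders glue β p) t : ℝ≥0∞)) 1 (fun _ => sum_share_le ρ _)

/-- The extra weight in the comparison of two concentration assignments. -/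
noncomputable def extra (glue : T → Fin 4 → L × ℕ) (c : ℝ≥0∞) (β : Asm T) (x : Pos × T) : ℝ≥0∞ :=
  if CanAdd glue β x.1 x.2 then ((frontier glue β).encard : ℝ≥0∞)⁻¹ * c else 0

lemma sum_extra_le (glue : T → Fin 4 → L × ℕ) (c : ℝ≥0∞) (β : Asm T) :
    ∑' x, extra glue c β x ≤ Fintype.card T * c := by
  refine step_sum (fun _ _ => c) _ (fun p => ?_)
  rw [Finset.sum_const, nsmul_eq_mul]
  exact mul_le_mul_left (by exact_mod_cast Finset.card_le_univ _) c

lemma step_close {glue : T → Fin 4 → L × ℕ} {ρ ρ' : T → ℝ≥0} {c : ℝ≥0∞}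
    (h : ∀ J t, t ∈ J → (share ρ J t : ℝ≥0∞) ≤ share ρ' J t + c) (β : Asm T) (x : Pos × T) :
    stepProb glue ρ β x ≤ stepProb glue ρ' β x + extra glue c β x := by
  unfold stepProb extra
  split_ifs with hx
  · rw [← mul_add]
    exact mul_le_mul_right (h _ _ (Finset.mem_filter.2 ⟨Finset.mem_univ _, hx⟩)) _
  · simp

lemma W_short {glue : T → Fin 4 → L × ℕ} {ρ : T → ℝ≥0} {g : Asm T → ℝ≥0∞} (hg : ∀ α, g α ≤ 1)
    (ht : ∀ α, ¬ Terminal glue α → g α = 0) (s : ℕ) : ∀ β : Asm T,
    ∑' l : List (Pos × T), (if l.length ≤ s then g (last β l) * seqProb glue ρ β l else 0) ≤ 1 := by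
  induction s with
  | zero =>
    intro β
    rw [tsum_list]
    simp only [List.length_nil, le_refl, if_true, List.length_cons, last, seqProb, mul_one]
    simp [hg β]
  | succ s ih =>
    intro β
    rw [tsum_list]
    simp only [List.length_nil, zero_le, if_true, List.length_cons, last, seqProb, mul_one,
      add_le_add_iff_right]
    have h1 : ∀ x, ∑' l : List (Pos × T), (if l.length ≤ s then g (last (insert x β) l) *
        (stepProb glue ρ β x * seqProb glue ρ (insert x β) l) else 0) ≤ stepProb glue ρ β x := by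
      intro x
      calc _ = ∑' l : List (Pos × T), stepProb glue ρ β x * (if l.length ≤ s then
            g (last (insert x β) l) * seqProb glue ρ (insert x β) l else 0) := by
            refine tsum_congr fun l => ?_
            split_ifs
            · ring
            · simp
        _ = stepProb glue ρ β x * _ := ENNReal.tsum_mul_left
        _ ≤ stepProb glue ρ β x * 1 := mul_le_mul_right (ih _) _
        _ = _ := mul_one _
    by_cases hT : Terminal glue β
    · have h2 : ∀ x, ∑' l : List (Pos × T), (if l.length ≤ s then g (last (insert x β) l) *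
        (stepProb glue ρ β x * seqProb glue ρ (insert x β) l) else 0) = 0 := by
        intro x
        have := h1 x
        rw [stepProb_terminal hT] at this ⊢
        simpa using this
      simp only [h2, tsum_zero, add_zero]
      exact hg β
    · rw [ht β hT, zero_add]
      exact (ENNReal.tsum_le_tsum h1).trans (sum_step_le glue ρ β)

lemma W_le_one {glue : T → Fin 4 → L × ℕ} {ρ : T → ℝ≥0} {g : Asm T → ℝ≥0∞} (hg : ∀ α, g α ≤ 1)
    (ht : ∀ α, ¬ Terminal glue α → g α = 0) (β : Asm T) : W glue ρ g β ≤ 1 := by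
  unfold W
  rw [ENNReal.tsum_eq_iSup_sum]
  refine iSup_le fun F => ?_
  refine le_trans ?_ (W_short (ρ := ρ) hg ht (F.sup List.length) β)
  refine le_trans (Finset.sum_le_sum fun l hl => ?_) (ENNReal.sum_le_tsum F)
  rw [if_pos (Finset.le_sup (f := List.length) hl)]

lemma dom_insert (x : Pos × T) (β : Asm T) : dom (insert x β) = insert x.1 (dom β) := by
  unfold dom
  rw [Finset.image_insert]

lemma dom_last (l : List (Pos × T)) : ∀ β : Asm T, (dom β).card ≤ (dom (last β l)).card := by
  induction l with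
  | nil => intro β; exact le_rfl
  | cons x l ih =>
    intro β
    refine le_trans ?_ (ih (insert x β))
    rw [dom_insert]
    exact Finset.card_le_card (Finset.subset_insert _ _)

/-- The hybrid argument. -/
lemma compare {glue : T → Fin 4 → L × ℕ} {ρ ρ' : T → ℝ≥0} {c : ℝ≥0∞}
    (h : ∀ J t, t ∈ J → (share ρ J t : ℝ≥0∞) ≤ share ρ' J t + c) {g g' : Asm T → ℝ≥0∞}
    (hgg : ∀ α, g α ≤ g' α) (hg : ∀ α, g' α ≤ 1) (ht : ∀ α, ¬ Terminal glue α → g' α = 0)
    {S : ℕ} (hS : ∀ α, S ≤ (dom α).card → g α = 0) (s : ℕ) : ∀ β : Asm T, S ≤ (dom β).card + s →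
    W glue ρ g β ≤ W glue ρ' g' β + s * (Fintype.card T * c) := by
  induction s with
  | zero =>
    intro β hβ
    have : W glue ρ g β = 0 := by
      unfold W
      rw [ENNReal.tsum_eq_zero]
      intro l
      rw [hS _ (le_trans (by simpa using hβ) (dom_last l β)), zero_mul]
    rw [this]
    exact zero_le
  | succ s ih =>
    intro β hβ
    by_cases hT : Terminal glue β
    · rw [W_eq glue ρ, W_eq glue ρ']
      simp only [stepProb_terminal hT, zero_mul, tsum_zero, add_zero]
      exact le_add_right (hgg β)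
    · have hg0 : g β = 0 := le_antisymm ((hgg β).trans_eq (ht β hT)) zero_le
      set κ : ℝ≥0∞ := Fintype.card T * c with hκ
      have hstep : ∀ x, stepProb glue ρ β x * W glue ρ g (insert x β) ≤
          (stepProb glue ρ' β x * W glue ρ' g' (insert x β) + extra glue c β x) +
            stepProb glue ρ β x * (s * κ) := by
        intro x
        by_cases hx : CanAdd glue β x.1 x.2
        · have hcard : S ≤ (dom (insert x β)).card + s := by
            rw [dom_insert, Finset.card_insert_of_notMem hx.1]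
            omega
          calc stepProb glue ρ β x * W glue ρ g (insert x β)
              ≤ stepProb glue ρ β x * (W glue ρ' g' (insert x β) + s * κ) :=
                mul_le_mul_right (ih _ hcard) _
            _ = stepProb glue ρ β x * W glue ρ' g' (insert x β) +
                stepProb glue ρ β x * (s * κ) := mul_add _ _ _
            _ ≤ _ := by
                refine add_le_add_left ?_ _
                calc stepProb glue ρ β x * W glue ρ' g' (insert x β)
                    ≤ (stepProb glue ρ' β x + extra glue c β x) * W glue ρ' g' (insert x β) :=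
                      mul_le_mul_left (step_close h β x) _
                  _ = stepProb glue ρ' β x * W glue ρ' g' (insert x β) +
                      extra glue c β x * W glue ρ' g' (insert x β) := add_mul _ _ _
                  _ ≤ _ := by
                      refine add_le_add_right ?_ _
                      exact (mul_le_mul_right (W_le_one hg ht _) _).trans_eq (mul_one _)
        · have : stepProb glue ρ β x = 0 := by unfold stepProb; rw [if_neg hx]
          rw [this, zero_mul]
          exact zero_le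
      calc W glue ρ g β = ∑' x, stepProb glue ρ β x * W glue ρ g (insert x β) := by
            rw [W_eq, hg0, zero_add]
        _ ≤ ∑' x, ((stepProb glue ρ' β x * W glue ρ' g' (insert x β) + extra glue c β x) +
            stepProb glue ρ β x * (s * κ)) := ENNReal.tsum_le_tsum hstep
        _ = (∑' x, stepProb glue ρ' β x * W glue ρ' g' (insert x β)) +
            (∑' x, extra glue c β x) + (∑' x, stepProb glue ρ β x) * (s * κ) := by
            rw [ENNReal.tsum_add, ENNReal.tsum_add, ENNReal.tsum_mul_right]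
        _ ≤ W glue ρ' g' β + κ + 1 * (s * κ) := by
            refine add_le_add (add_le_add ?_ (sum_extra_le glue c β)) ?_
            · rw [W_eq glue ρ' g' β]; exact le_add_self
            · exact mul_le_mul_left (sum_step_le glue ρ β) _
        _ = W glue ρ' g' β + ((s + 1 : ℕ) : ℝ≥0∞) * κ := by
            push_cast; ring

/-- The class of a concentration assignment: the shares rounded down to multiples of `1 / M`. -/
noncomputable def cls (M : ℕ) (ρ : T → ℝ≥0) (y : Finset T × T) : Fin (M + 1) :=
  ⟨min M ⌊(M : ℝ≥0) * share ρ y.1 y.2⌋₊, by omega⟩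

lemma share_le_one (ρ : T → ℝ≥0) {J : Finset T} {t : T} (ht : t ∈ J) : share ρ J t ≤ 1 := by
  unfold share
  exact div_le_one_of_le₀ (Finset.single_le_sum (fun _ _ => zero_le) ht) zero_le

lemma share_le_of_cls {M : ℕ} (hM : 0 < M) {ρ ρ' : T → ℝ≥0} (h : cls M ρ = cls M ρ')
    (J : Finset T) (t : T) (ht : t ∈ J) :
    (share ρ J t : ℝ≥0∞) ≤ share ρ' J t + (M : ℝ≥0∞)⁻¹ := by
  have hM' : (0 : ℝ≥0) < M := by exact_mod_cast hM
  have h1 : ∀ ρ'' : T → ℝ≥0, ⌊(M : ℝ≥0) * share ρ'' J t⌋₊ ≤ M := by
    intro ρ''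
    refine Nat.floor_le_of_le ?_
    exact mul_le_of_le_one_right zero_le (share_le_one ρ'' ht)
  have h2 : ⌊(M : ℝ≥0) * share ρ J t⌋₊ = ⌊(M : ℝ≥0) * share ρ' J t⌋₊ := by
    have := congrArg Fin.val (congrFun h (J, t))
    simpa [cls, min_eq_right (h1 _)] using this
  have h3 : (M : ℝ≥0) * share ρ J t ≤ M * share ρ' J t + 1 := by
    refine (Nat.lt_floor_add_one _).le.trans ?_
    rw [h2]
    gcongr
    exact Nat.floor_le zero_le
  have h4 : share ρ J t ≤ share ρ' J t + (M : ℝ≥0)⁻¹ := by
    rw [← mul_le_mul_iff_right₀ hM', mul_add, mul_inv_cancel₀ hM'.ne']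
    exact h3
  have h5 : ((share ρ J t : ℝ≥0) : ℝ≥0∞) ≤ ((share ρ' J t + (M : ℝ≥0)⁻¹ : ℝ≥0) : ℝ≥0∞) := by
    exact_mod_cast h4
  refine h5.trans ?_
  rw [ENNReal.coe_add, ENNReal.coe_inv hM'.ne', ENNReal.coe_natCast]

lemma W_ind_add (glue : T → Fin 4 → L × ℕ) (ρ : T → ℝ≥0) (A B : Set (Asm T)) (β : Asm T) :
    W glue ρ (ind glue A) β + W glue ρ (ind glue B) β =
      W glue ρ (ind glue (A ∩ B)) β + W glue ρ (ind glue (A ∪ B)) β := by
  unfold W
  rw [← ENNReal.tsum_add, ← ENNReal.tsum_add]
  refine tsum_congr fun l => ?_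
  rw [← add_mul, ← add_mul]
  congr 1
  unfold ind
  by_cases hT : Terminal glue (last β l) <;> by_cases hA : last β l ∈ A <;>
    by_cases hB : last β l ∈ B <;> simp [hT, hA, hB]

lemma ind_le_one (glue : T → Fin 4 → L × ℕ) (A : Set (Asm T)) (α : Asm T) : ind glue A α ≤ 1 := by
  unfold ind
  split_ifs <;> simp

lemma ind_terminal (glue : T → Fin 4 → L × ℕ) (A : Set (Asm T)) (α : Asm T)
    (h : ¬ Terminal glue α) : ind glue A α = 0 := by
  unfold ind
  rw [if_neg (fun h' => h h'.1)]

lemma ind_mono (glue : T → Fin 4 → L × ℕ) {A B : Set (Asm T)} (h : A ⊆ B) (α : Asm T) :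
    ind glue A α ≤ ind glue B α := by
  unfold ind
  by_cases h1 : Terminal glue α ∧ α ∈ A
  · rw [if_pos h1, if_pos ⟨h1.1, h h1.2⟩]
  · rw [if_neg h1]; exact zero_le

lemma W_mono (glue : T → Fin 4 → L × ℕ) (ρ : T → ℝ≥0) {A B : Set (Asm T)} (h : A ⊆ B)
    (β : Asm T) : W glue ρ (ind glue A) β ≤ W glue ρ (ind glue B) β :=
  ENNReal.tsum_le_tsum fun _ => mul_le_mul_left (ind_mono glue h _) _

/-- **Result.** For every error probability `δ < 1/3`, every tile system with `k` tile types,
every map `r` and all concentration assignments `ρ n` which represent each number `n` with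
probability at least `1 - δ`: for infinitely many `n` the probability that the terminal assembly
has fewer than `n ^ (1 / (2 * k * 2 ^ k))` tiles is less than `1 - δ`. -/
theorem result (δ : ℝ) (hδ0 : 0 < δ) (hδ : δ < 1 / 3) (L T : Type) [Fintype T]
    (glue : T → Fin 4 → L × ℕ) (seed : Pos × T) (r : Asm T → ℕ) (ρ : ℕ → T → ℝ≥0)
    (hr : ∀ n, ENNReal.ofReal (1 - δ) ≤ Pr glue seed (ρ n) {α | r α = n}) :
    ∃ᶠ n : ℕ in atTop, Pr glue seed (ρ n)
      {α | ((dom α).card : ℝ) < (n : ℝ) ^ (1 / (2 * Fintype.card T * 2 ^ Fintype.card T : ℝ))} <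
        ENNReal.ofReal (1 - δ) := by
  intro hcon
  obtain ⟨n₀, hn₀⟩ := eventually_atTop.1 hcon
  set k := Fintype.card T with hk
  have hkpos : 0 < k := Fintype.card_pos_iff.2 ⟨seed.2⟩
  set D := k * 2 ^ k with hD
  have hDpos : 0 < D := by positivity
  have hDcast : (2 * k * 2 ^ k : ℝ) = ((2 * D : ℕ) : ℝ) := by rw [hD]; push_cast; ring
  obtain ⟨C, hC⟩ := exists_nat_gt ((k : ℝ) / (1 - 3 * δ))
  have hgap : 0 < 1 - 3 * δ := by linarith
  have hCpos' : (0 : ℝ) < C := lt_of_le_of_lt (by positivity) hC
  have hCpos : 0 < C := by exact_mod_cast hCpos'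
  set K := (C + 1) ^ D + n₀ + 1 with hK
  have hKpos : 0 < K := by omega
  set M := C * K with hM
  have hMpos : 0 < M := by positivity
  -- the pigeonhole principle
  have hcard : (Finset.univ : Finset (Finset T × T → Fin (M + 1))).card <
      (Finset.Icc n₀ (K ^ (2 * D))).card := by
    rw [Nat.card_Icc, Finset.card_univ, Fintype.card_fun, Fintype.card_fin, Fintype.card_prod,
      Fintype.card_finset, ← hk, mul_comm (2 ^ k) k, ← hD]
    have h1 : (M + 1) ^ D ≤ ((C + 1) * K) ^ D := by
      refine Nat.pow_le_pow_left ?_ D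
      rw [hM]; nlinarith
    have h2 : ((C + 1) * K) ^ D = (C + 1) ^ D * K ^ D := mul_pow _ _ _
    have h3 : K ≤ K ^ D := Nat.le_self_pow hDpos.ne' K
    have h4 : K ^ (2 * D) = K ^ D * K ^ D := by rw [two_mul, pow_add]
    have h5 : ((C + 1) ^ D + n₀ + 1) * K ^ D ≤ K ^ D * K ^ D :=
      Nat.mul_le_mul_right _ (hK ▸ h3)
    have h6 : n₀ + 1 ≤ (n₀ + 1) * K ^ D := Nat.le_mul_of_pos_right _ (by positivity)
    have h7 : ((C + 1) ^ D + n₀ + 1) * K ^ D = (C + 1) ^ D * K ^ D + (n₀ + 1) * K ^ D := by ring
    omega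
  obtain ⟨n, hn, m, hm, hnm, hcls⟩ := Finset.exists_ne_map_eq_of_card_lt_of_maps_to hcard
    (f := fun n => cls M (ρ n)) (fun _ _ => Finset.mem_univ _)
  rw [Finset.mem_Icc] at hn hm
  -- small assemblies
  have hsmall : ∀ n : ℕ, n ≤ K ^ (2 * D) → (n : ℝ) ^ (1 / (2 * k * 2 ^ k : ℝ)) ≤ K := by
    intro n hn
    rw [hDcast]
    have h1 : (n : ℝ) ≤ (K : ℝ) ^ (2 * D) := by exact_mod_cast hn
    have h2 : (n : ℝ) ^ (1 / ((2 * D : ℕ) : ℝ)) ≤ ((K : ℝ) ^ (2 * D)) ^ (1 / ((2 * D : ℕ) : ℝ)) :=
      Real.rpow_le_rpow (by positivity) h1 (by positivity)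
    refine h2.trans_eq ?_
    rw [one_div, Real.pow_rpow_inv_natCast (by positivity) (by omega)]
  set E : Set (Asm T) := {α | (dom α).card < K} with hE
  have hb : ENNReal.ofReal (1 - δ) ≤ W glue (ρ n) (ind glue E) {seed} := by
    refine (not_lt.1 (hn₀ n hn.1)).trans ?_
    rw [Pr_eq]
    refine W_mono glue _ ?_ _
    intro α hα
    have : ((dom α).card : ℝ) < K := lt_of_lt_of_le hα (hsmall n hn.2)
    exact_mod_cast this
  have ha := hr n
  have he := hr m
  rw [Pr_eq] at ha he
  set A : Set (Asm T) := {α | r α = n} with hA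
  set B : Set (Asm T) := {α | r α = m} with hB
  have h1 : W glue (ρ n) (ind glue A) {seed} + W glue (ρ n) (ind glue E) {seed} ≤
      W glue (ρ n) (ind glue (A ∩ E)) {seed} + 1 := by
    rw [W_ind_add]
    exact add_le_add_right (W_le_one (ind_le_one glue _) (ind_terminal glue _) _) _
  have h2 : W glue (ρ m) (ind glue A) {seed} + W glue (ρ m) (ind glue B) {seed} ≤ 1 := by
    rw [W_ind_add]
    have : W glue (ρ m) (ind glue (A ∩ B)) {seed} = 0 := by
      unfold W
      rw [ENNReal.tsum_eq_zero]
      intro l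
      have : ind glue (A ∩ B) (last {seed} l) = 0 := by
        unfold ind
        rw [if_neg]
        rintro ⟨-, h3, h4⟩
        exact hnm (h3.symm.trans h4)
      rw [this, zero_mul]
    rw [this, zero_add]
    exact W_le_one (ind_le_one glue _) (ind_terminal glue _) _
  have h3 : W glue (ρ n) (ind glue (A ∩ E)) {seed} ≤
      W glue (ρ m) (ind glue A) {seed} + K * (k * (M : ℝ≥0∞)⁻¹) := by
    refine compare (share_le_of_cls hMpos hcls) (ind_mono glue Set.inter_subset_left)
      (ind_le_one glue _) (ind_terminal glue _) (S := K) ?_ K {seed} (by omega)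
    intro α hα
    unfold ind
    rw [if_neg]
    rintro ⟨-, -, h4⟩
    exact absurd h4 (not_lt.2 hα)
  have h4 : (K : ℝ≥0∞) * (k * (M : ℝ≥0∞)⁻¹) = ENNReal.ofReal (k / C) := by
    have : (k / C : ℝ) = K * (k * (M : ℝ)⁻¹) := by
      rw [hM]
      have : (K : ℝ) ≠ 0 := by positivity
      push_cast
      field_simp
    rw [this, ENNReal.ofReal_mul (by positivity), ENNReal.ofReal_mul (by positivity),
      ENNReal.ofReal_inv_of_pos (by positivity), ENNReal.ofReal_natCast, ENNReal.ofReal_natCast,
      ENNReal.ofReal_natCast]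
  rw [h4] at h3
  have h5 : ENNReal.ofReal (1 - δ) + ENNReal.ofReal (1 - δ) + ENNReal.ofReal (1 - δ) ≤
      2 + ENNReal.ofReal (k / C) := by
    calc ENNReal.ofReal (1 - δ) + ENNReal.ofReal (1 - δ) + ENNReal.ofReal (1 - δ)
        ≤ W glue (ρ n) (ind glue A) {seed} + W glue (ρ n) (ind glue E) {seed} +
          W glue (ρ m) (ind glue B) {seed} := add_le_add (add_le_add ha hb) he
      _ ≤ (W glue (ρ m) (ind glue A) {seed} + ENNReal.ofReal (k / C) + 1) +
          W glue (ρ m) (ind glue B) {seed} :=
          add_le_add_left (h1.trans (add_le_add_left h3 1)) _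
      _ = (W glue (ρ m) (ind glue A) {seed} + W glue (ρ m) (ind glue B) {seed}) + 1 +
          ENNReal.ofReal (k / C) := by ring
      _ ≤ 1 + 1 + ENNReal.ofReal (k / C) := add_le_add_left (add_le_add_left h2 1) _
      _ = 2 + ENNReal.ofReal (k / C) := by rw [one_add_one_eq_two]
  have h6 : (1 - δ) + (1 - δ) + (1 - δ) ≤ 2 + (k / C : ℝ) := by
    have hd : (0 : ℝ) ≤ 1 - δ := by linarith
    rw [← ENNReal.ofReal_add hd hd, ← ENNReal.ofReal_add (by linarith) hd,
      show (2 : ℝ≥0∞) = ENNReal.ofReal 2 by simp,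
      ← ENNReal.ofReal_add (by norm_num) (by positivity)] at h5
    exact (ENNReal.ofReal_le_ofReal_iff (by positivity)).1 h5
  have h7 : (k : ℝ) / C < 1 - 3 * δ := by
    rw [div_lt_iff₀ hgap] at hC
    rw [div_lt_iff₀ hCpos']
    linarith
  linarith

end Pool.Agent.Results.MP_c103f8_lc.PolynomialSizeNeeded
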